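import Pool.Agent.Helper45.PQ.StA

/-! # PQ MODULE RKG: rank bound in characteristic three -/

set_option autoImplicit false

open Module Classical
open scoped LinearAlgebra.Projectivization

namespace Pool.Agent.Helper36.PQ

open Pool.Agent.Helper45.PQ

universe u v

private theorem sum_three_pow (h : ℕ) : 2 * ∑ t : Fin h, 3 ^ (t : ℕ) + 1 = 3 ^ h := by
  induction h with
  | zero => simp
  | succ h ih =>
    rw [Fin.sum_univ_castSucc]
    simp only [Fin.val_castSucc, Fin.val_last]
    rw [pow_succ]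
    omega

private theorem pow_expand {F : Type u} [Field F] [CharP F 3] (h d : ℕ) (a b : Fin d → F) :
    (∑ k, a k * b k) ^ (∑ t : Fin h, 3 ^ (t : ℕ)) =
      ∑ κ : Fin h → Fin d, (∏ t, a (κ t) ^ 3 ^ (t : ℕ)) * ∏ t, b (κ t) ^ 3 ^ (t : ℕ) := by
  have h2 : ∀ t : Fin h, (∑ k, a k * b k) ^ 3 ^ (t : ℕ) = ∑ k, (a k * b k) ^ 3 ^ (t : ℕ) := by
    intro t
    have h3 := map_sum (iterateFrobenius F 3 (t : ℕ)) (fun k => a k * b k) Finset.univ
    simpa only [iterateFrobenius_def] using h3
  rw [← Finset.prod_pow_eq_pow_sum]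
  simp_rw [h2]
  rw [Finset.prod_univ_sum]
  simp only [Fintype.piFinset_univ]
  apply Finset.sum_congr rfl
  intro κ _
  rw [← Finset.prod_mul_distrib]
  apply Finset.prod_congr rfl
  intro t _
  rw [mul_pow]

/-- RKG -/
theorem hRKG : StRKG.{u, v} := by
  intro F _ _ h D hF hh1 α _ g a b h0 h1 hab
  have hfin : Fintype F := Fintype.ofFinite F
  have hcard : Fintype.card F = 3 ^ h := by rw [← Nat.card_eq_fintype_card, hF]
  have hp : Fact (Nat.Prime 3) := ⟨Nat.prime_three⟩
  have hchar : CharP F 3 := charP_of_card_eq_prime_pow hcard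
  have hs := sum_three_pow h
  obtain ⟨N, hN⟩ : ∃ N : ℕ, N = ∑ t : Fin h, 3 ^ (t : ℕ) := ⟨_, rfl⟩
  obtain ⟨u, hu⟩ : ∃ u : α → (Fin h → Fin D) → F,
    u = fun i κ => ∏ t : Fin h, a i (κ t) ^ 3 ^ (t : ℕ) := ⟨_, rfl⟩
  obtain ⟨w, hw⟩ : ∃ w : α → (Fin h → Fin D) → F,
    w = fun j κ => ∏ t : Fin h, b j (κ t) ^ 3 ^ (t : ℕ) := ⟨_, rfl⟩
  have hpow : ∀ i j, (g i j ^ 2) ^ N = ∑ κ, u i κ * w j κ := by
    intro i j
    rw [hab, hN, pow_expand, hu, hw]
  rw [← hN] at hs
  have h3 : 3 ≤ 3 ^ h := by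
    calc 3 = 3 ^ 1 := by norm_num
      _ ≤ 3 ^ h := Nat.pow_le_pow_right (by norm_num) hh1
  have hN0 : N ≠ 0 := by omega
  have hone : ∀ i j, (g i j ^ 2) ^ N = if i = j then 0 else 1 := by
    intro i j
    by_cases hij : i = j
    · subst hij
      rw [if_pos rfl, h0, zero_pow two_ne_zero, zero_pow hN0]
    · rw [if_neg hij, ← pow_mul]
      have h4 : 2 * N = Fintype.card F - 1 := by omega
      rw [h4]
      exact FiniteField.pow_card_sub_one_eq_one _ (h1 i j hij)
  obtain ⟨L, hL⟩ : ∃ L : (α → F) →ₗ[F] ((Fin h → Fin D) → F) × F,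
      ∀ a, L a = (∑ i, a i • u i, ∑ i, a i) := by
    refine ⟨LinearMap.prod (∑ i, (LinearMap.proj i).smulRight (u i)) (∑ i, LinearMap.proj i), ?_⟩
    intro a
    simp
  have hinj : Function.Injective L := by
    rw [← LinearMap.ker_eq_bot, LinearMap.ker_eq_bot']
    intro a ha
    rw [hL, Prod.mk_eq_zero] at ha
    funext j
    have e1 : ∑ i, a i * (g i j ^ 2) ^ N = 0 := by
      calc ∑ i, a i * (g i j ^ 2) ^ N = ∑ i, a i * ∑ κ, u i κ * w j κ := by
            simp_rw [hpow]
        _ = ∑ κ, (∑ i, a i • u i) κ * w j κ := by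
            simp_rw [Finset.mul_sum, Finset.sum_apply, Finset.sum_mul]
            rw [Finset.sum_comm]
            apply Finset.sum_congr rfl
            intro κ _
            apply Finset.sum_congr rfl
            intro i _
            simp only [Pi.smul_apply, smul_eq_mul]
            ring
        _ = 0 := by
            rw [ha.1]
            simp
    have e2 : ∑ i, a i * (g i j ^ 2) ^ N = ∑ i, a i - a j := by
      rw [eq_sub_iff_add_eq, ← Finset.sum_erase_add _ _ (Finset.mem_univ j),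
        ← Finset.sum_erase_add _ (fun i => a i) (Finset.mem_univ j), hone, if_pos rfl, mul_zero,
        add_zero]
      congr 1
      apply Finset.sum_congr rfl
      intro i hi
      rw [hone, if_neg (Finset.ne_of_mem_erase hi), mul_one]
    rw [e1, ha.2, zero_sub] at e2
    simpa using e2.symm
  have hle := LinearMap.finrank_le_finrank_of_injective hinj
  rw [finrank_prod, finrank_self, finrank_fintype_fun_eq_card, finrank_fintype_fun_eq_card,
    Fintype.card_fun, Fintype.card_fin, Fintype.card_fin] at hle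
  exact hle

end Pool.Agent.Helper36.PQ
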